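import Pool.Agent.H.MP_5f9601_gt.U.Final
import Pool.Agent.H.MP_5f9601_gt.U.Section4

/-! Equivariant maps of spheres with an explicit linear growth of the dimensions. -/

set_option autoImplicit false

open Metric Set Topology

namespace Pool.Agent.H.MP_5f9601_gt.helper41

open Pool.Agent.H.MP_5f9601_gt

/-- Theorem S for every odd prime. -/
theorem thmS_odd {p : ℕ} (hp : p.Prime) (hp2 : p ≠ 2) : ThmS p := by
  obtain ⟨M, hM⟩ := U.exists_fillers hp
  exact U.thmS_of_blocks hp.ne_zero fun k hk =>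
    U.block_of_plainFiller (hp.odd_of_ne_two hp2) (hM k hk)

/-- The dimensions `D p^(i+1) + 2 i + c`. -/
def dim (p c D i : ℕ) : ℕ := D * p ^ (i + 1) + 2 * i + c

/-- Equivariant maps one dimension above the sequence. -/
theorem exists_maps {p : ℕ} (hp : p.Prime) (hp2 : p ≠ 2) :
    ∃ c : ℕ, 2 ≤ c ∧ ∀ D i : ℕ, EqMap p (i + 1) (dim p c D (i + 1) + 1) (dim p c D i) := by
  have hp3 : 3 ≤ p := by
    have := hp.two_le
    omega
  obtain ⟨N, hN⟩ := thmS_odd hp hp2
  refine ⟨p * (N + 1) + 3, by omega, fun D i => ?_⟩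
  set c := p * (N + 1) + 3 with hc
  have hcN : N + 1 + 2 ≤ c := by
    have : 1 * (N + 1) ≤ p * (N + 1) := Nat.mul_le_mul_right _ (by omega)
    omega
  have hdim : N + (i + 1) + 1 ≤ dim p c D i := by
    have : 0 ≤ D * p ^ (i + 1) := Nat.zero_le _
    change N + (i + 1) + 1 ≤ D * p ^ (i + 1) + 2 * i + c
    omega
  obtain ⟨b, hb⟩ := Nat.exists_eq_add_of_le hdim
  have hb' : dim p c D i = N + (b + i + 1) + 1 := by omega
  obtain ⟨φ, f1, f2, f3⟩ := hN (i + 1) (b + i + 1) (by omega)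
  rw [hb']
  refine (EqMap.of_nonzero (by omega) φ f1 f2 f3).mono_left ?_
  have e : b + i + 1 + 1 - (i + 1) = b + 1 := by omega
  rw [e]
  -- `dim (i+1) + 1 ≤ p * (b + 1)`
  have h1 : b + 1 + (N + i + 1) = D * p ^ (i + 1) + 2 * i + c := by
    have : dim p c D i = D * p ^ (i + 1) + 2 * i + c := rfl
    omega
  have h2 : p * (b + 1) + p * (N + i + 1) = D * p ^ (i + 1 + 1) + p * (2 * i) + p * c := by
    calc p * (b + 1) + p * (N + i + 1) = p * (b + 1 + (N + i + 1)) := by ring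
      _ = p * (D * p ^ (i + 1) + 2 * i + c) := by rw [h1]
      _ = _ := by ring
  have h3 : 3 * i ≤ p * i := Nat.mul_le_mul_right _ hp3
  have h4 : 3 * c ≤ p * c := Nat.mul_le_mul_right _ hp3
  have h5 : p * (N + i + 1) = p * (N + 1) + p * i := by ring
  have h6 : p * (2 * i) = p * i + p * i := by ring
  change D * p ^ (i + 1 + 1) + 2 * (i + 1) + c + 1 ≤ p * (b + 1)
  omega

end Pool.Agent.H.MP_5f9601_gt.helper41
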